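import Pool.Agent.Helper69.LZ.Words

/-!
# Positive braids with many half twists: definitions

A positive word is simple if any two strands cross at most once (a positive permutation braid).
-/

set_option autoImplicit false

namespace Pool.Agent.Helper30.GA

open Pool.Agent.Helper69.LZ

/-- the labels of the strands after a crossing at the positions `a`, `a + 1` -/
def swp (p : ℕ → ℕ) (a : ℕ) : ℕ → ℕ :=
  fun j => if j = a then p (a + 1) else if j = a + 1 then p a else p j

/-- Each crossing of the word is between two strands that are still in their original order; `p j`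
is the label of the strand at the position `j`. -/
def Once : (ℕ → ℕ) → List ℕ → Prop
  | _, [] => True
  | p, a :: w => p a < p (a + 1) ∧ Once (swp p a) w

/-- the letters `k, k - 1, …, k - m + 1` -/
def vb (k m : ℕ) : List ℕ := (List.range m).map fun i => k - i

/-- the simple word with code `c`, `c k ≤ k + 1` -/
def sw (n : ℕ) (c : ℕ → ℕ) : List ℕ := (List.range n).flatMap fun k => vb k (c k)

/-- the flip of a word on `n + 1` strands -/
def flip (n : ℕ) (w : List ℕ) : List ℕ := w.map fun a => n - 1 - a

/-- `Δ ^ p` as a word on `n + 1` strands -/
def tw (n p : ℕ) : List ℕ := (List.replicate p (wd (down (n + 1)))).flatten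

@[simp] theorem sw_zero (c : ℕ → ℕ) : sw 0 c = [] := rfl

theorem sw_succ (n : ℕ) (c : ℕ → ℕ) : sw (n + 1) c = sw n c ++ vb n (c n) := by
  unfold sw
  rw [List.range_succ, List.flatMap_append]
  simp

@[simp] theorem vb_zero (k : ℕ) : vb k 0 = [] := rfl

theorem vb_succ (k m : ℕ) : vb k (m + 1) = vb k m ++ [k - m] := by
  unfold vb
  rw [List.range_succ, List.map_append]
  rfl

end Pool.Agent.Helper30.GA
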