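import Pool.Agent.Helper30.GA.Defs

/-!
# The energy of a vector and the crossings

`E N u = ∑ ‖u (j + 1) - u j‖ ^ 2` for `u j = s ^ (-j) L j`.
-/

set_option autoImplicit false

namespace Pool.Agent.Helper30.GA

open Pool.Agent.Helper69.LZ Finset

/-- the energy -/
noncomputable def E (N : ℕ) (u : ℕ → ℂ) : ℝ := ∑ j ∈ range N, ‖u (j + 1) - u j‖ ^ 2

theorem E_nonneg (N : ℕ) (u : ℕ → ℂ) : 0 ≤ E N u := sum_nonneg fun _ _ => by positivity

theorem par (v p q : ℂ) : ‖v - p‖ ^ 2 + ‖q - v‖ ^ 2 = 2 * ‖v - (p + q) / 2‖ ^ 2 + ‖p - q‖ ^ 2 / 2 := by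
  have h : ∀ z : ℂ, ‖z‖ ^ 2 = z.re ^ 2 + z.im ^ 2 := by
    intro z
    rw [Complex.sq_norm, Complex.normSq_apply]
    ring
  rw [h, h, h, h]
  have e1 : ((p + q) / 2).re = (p.re + q.re) / 2 := by
    rw [show (2 : ℂ) = ((2 : ℝ) : ℂ) by norm_num, Complex.div_ofReal_re, Complex.add_re]
  have e2 : ((p + q) / 2).im = (p.im + q.im) / 2 := by
    rw [show (2 : ℂ) = ((2 : ℝ) : ℂ) by norm_num, Complex.div_ofReal_im, Complex.add_im]
  simp only [Complex.sub_re, Complex.sub_im, e1, e2]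
  ring

theorem E_update {N a : ℕ} (h : a + 1 < N) (u : ℕ → ℂ) :
    ∃ C : ℝ, ∀ v : ℂ, E N (Function.update u (a + 1) v) =
      C + 2 * ‖v - (u a + u (a + 2)) / 2‖ ^ 2 := by
  refine ⟨(∑ j ∈ ((range N).erase a).erase (a + 1), ‖u (j + 1) - u j‖ ^ 2) +
    ‖u a - u (a + 2)‖ ^ 2 / 2, fun v => ?_⟩
  unfold E
  have m1 : a ∈ range N := mem_range.2 (by omega)
  have m2 : a + 1 ∈ (range N).erase a := mem_erase.2 ⟨by omega, mem_range.2 h⟩
  rw [← add_sum_erase _ _ m1, ← add_sum_erase _ _ m2]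
  have e1 : ∑ j ∈ ((range N).erase a).erase (a + 1),
      ‖Function.update u (a + 1) v (j + 1) - Function.update u (a + 1) v j‖ ^ 2 =
      ∑ j ∈ ((range N).erase a).erase (a + 1), ‖u (j + 1) - u j‖ ^ 2 := by
    refine sum_congr rfl fun j hj => ?_
    rw [mem_erase, mem_erase] at hj
    rw [Function.update_of_ne (by omega), Function.update_of_ne hj.1]
  rw [e1, Function.update_self, Function.update_of_ne (by omega), Function.update_of_ne (by omega)]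
  have := par v (u a) (u (a + 2))
  linarith

theorem norm_sum_sq_le (s : Finset ℕ) (d : ℕ → ℂ) :
    ‖∑ j ∈ s, d j‖ ^ 2 ≤ s.card * ∑ j ∈ s, ‖d j‖ ^ 2 := by
  calc ‖∑ j ∈ s, d j‖ ^ 2 ≤ (∑ j ∈ s, ‖d j‖) ^ 2 :=
        pow_le_pow_left₀ (norm_nonneg _) (norm_sum_le _ _) 2
    _ ≤ _ := sq_sum_le_card_mul_sum_sq

theorem le_E {N i : ℕ} (hi : i ≤ N) {u : ℕ → ℂ} (h0 : u 0 = 0) (hN : u N = 0) :
    (N : ℝ) * ‖u i‖ ^ 2 ≤ i * (N - i) * E N u := by
  have e1 : u i = ∑ j ∈ range i, (u (j + 1) - u j) := by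
    rw [sum_range_sub, h0, sub_zero]
  have e2 : -u i = ∑ j ∈ Ico i N, (u (j + 1) - u j) := by
    rw [sum_Ico_sub u hi, hN, zero_sub]
  have b1 : ‖u i‖ ^ 2 ≤ i * ∑ j ∈ range i, ‖u (j + 1) - u j‖ ^ 2 := by
    have := norm_sum_sq_le (range i) fun j => u (j + 1) - u j
    rwa [← e1, card_range] at this
  have b2 : ‖u i‖ ^ 2 ≤ (N - i) * ∑ j ∈ Ico i N, ‖u (j + 1) - u j‖ ^ 2 := by
    have := norm_sum_sq_le (Ico i N) fun j => u (j + 1) - u j
    rwa [← e2, norm_neg, Nat.card_Ico, Nat.cast_sub hi] at this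
  have e3 : E N u = ∑ j ∈ range i, ‖u (j + 1) - u j‖ ^ 2 + ∑ j ∈ Ico i N, ‖u (j + 1) - u j‖ ^ 2 := by
    unfold E
    rw [sum_range_add_sum_Ico _ hi]
  have c1 : (0 : ℝ) ≤ i := Nat.cast_nonneg i
  have c2 : (0 : ℝ) ≤ N - i := by
    have : (i : ℝ) ≤ N := by exact_mod_cast hi
    linarith
  rw [e3]
  have d1 := mul_le_mul_of_nonneg_left b1 c2
  have d2 := mul_le_mul_of_nonneg_left b2 c1
  linarith

/-- `(ρ y + c) ^ 2 - y ^ 2 ≤ c ^ 2 / (1 - ρ ^ 2)` -/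
theorem quad {ρ y c : ℝ} (h0 : 0 ≤ ρ) (h1 : ρ < 1) :
    (ρ * y + c) ^ 2 ≤ y ^ 2 + c ^ 2 / (1 - ρ ^ 2) := by
  have h2 : 0 < 1 - ρ ^ 2 := by nlinarith
  rw [← sub_le_iff_le_add', le_div_iff₀ h2]
  nlinarith [sq_nonneg ((1 - ρ ^ 2) * y - ρ * c)]

/-- `u_j = s ^ (-j) L_j` -/
noncomputable def uu (s : ℂ) (L : ℕ → ℂ) : ℕ → ℂ := fun j => s⁻¹ ^ j * L j

theorem uu_sg {s : ℂ} (hs : s ≠ 0) (L : ℕ → ℂ) (a : ℕ) :
    uu s (sg (s ^ 2) (a + 1) L) = Function.update (uu s L) (a + 1)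
      (s * (uu s L a + uu s L (a + 2)) - s ^ 2 * uu s L (a + 1)) := by
  funext j
  unfold uu sg
  by_cases h : j = a + 1
  · subst h
    rw [Function.update_self, Function.update_self, Nat.add_sub_cancel]
    have e : s⁻¹ * s = 1 := inv_mul_cancel₀ hs
    have e1 : s⁻¹ ^ (a + 1) * s ^ 2 = s⁻¹ ^ a * s := by
      rw [pow_succ, pow_two]
      linear_combination (s⁻¹ ^ a * s) * e
    have e2 : s⁻¹ ^ (a + 2) * s = s⁻¹ ^ (a + 1) := by
      rw [pow_succ _ (a + 1)]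
      linear_combination (s⁻¹ ^ (a + 1)) * e
    have e3 : a + 1 + 1 = a + 2 := rfl
    rw [e3]
    linear_combination (-L (a + 2)) * e2 + L a * e1
  · rw [Function.update_of_ne h, Function.update_of_ne h]

/-- one crossing -/
theorem E_sg {s : ℂ} (hs : s ≠ 0) (h1 : ‖s‖ < 1) {N a : ℕ} (h : a + 1 < N) {L : ℕ → ℂ}
    (h0 : L 0 = 0) (hN : L N = 0) :
    E N (uu s (sg (s ^ 2) (a + 1) L)) ≤ (1 + 2 * ‖1 - s‖ ^ 4 / (1 - ‖s‖ ^ 4) *
      ((a + 1) * (N - (a + 1)) / N)) * E N (uu s L) := by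
  obtain ⟨u, hu⟩ : ∃ u, u = uu s L := ⟨_, rfl⟩
  have u0 : u 0 = 0 := by
    rw [hu]
    unfold uu
    rw [h0, mul_zero]
  have uN : u N = 0 := by
    rw [hu]
    unfold uu
    rw [hN, mul_zero]
  rw [uu_sg hs, ← hu]
  obtain ⟨C, hC⟩ := E_update h u
  have e1 := hC (u (a + 1))
  rw [Function.update_eq_self] at e1
  obtain ⟨w, hw⟩ : ∃ w, w = (u a + u (a + 2)) / 2 := ⟨_, rfl⟩
  have e2 := hC w
  rw [← hw] at hC e1 e2
  rw [sub_self, norm_zero, zero_pow (by norm_num), mul_zero, add_zero] at e2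
  have hNpos : (0 : ℝ) < N := by exact_mod_cast (by omega : 0 < N)
  have hlt : ((a + 1 : ℕ) : ℝ) < N := by exact_mod_cast h
  push_cast at hlt
  have b1 : (N : ℝ) * ‖w‖ ^ 2 ≤ (a + 1) * (N - (a + 1)) * C := by
    have h2 := le_E (N := N) (i := a + 1) (u := Function.update u (a + 1) w) h.le
      (by rw [Function.update_of_ne (by omega), u0]) (by rw [Function.update_of_ne (by omega), uN])
    rw [Function.update_self, e2] at h2
    push_cast at h2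
    exact h2
  have hC0 : 0 ≤ C := by
    rw [← e2]
    exact E_nonneg _ _
  have hCE : C ≤ E N u := by
    rw [e1]
    have : 0 ≤ ‖u (a + 1) - w‖ ^ 2 := by positivity
    linarith
  rw [hC]
  have e3 : s * (u a + u (a + 2)) - s ^ 2 * u (a + 1) - w =
      -(s ^ 2 * (u (a + 1) - w)) - (1 - s) ^ 2 * w := by
    have : u a + u (a + 2) = 2 * w := by
      rw [hw]
      ring
    rw [this]
    ring
  have b2 : ‖s * (u a + u (a + 2)) - s ^ 2 * u (a + 1) - w‖ ≤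
      ‖s‖ ^ 2 * ‖u (a + 1) - w‖ + ‖1 - s‖ ^ 2 * ‖w‖ := by
    rw [e3]
    refine (norm_sub_le _ _).trans ?_
    rw [norm_neg, norm_mul, norm_mul, norm_pow, norm_pow]
  have hρ0 : 0 ≤ ‖s‖ ^ 2 := by positivity
  have hρ1 : ‖s‖ ^ 2 < 1 := pow_lt_one₀ (norm_nonneg s) h1 (by norm_num)
  have b3 := quad (y := ‖u (a + 1) - w‖) (c := ‖1 - s‖ ^ 2 * ‖w‖) hρ0 hρ1
  have b4 : ‖s * (u a + u (a + 2)) - s ^ 2 * u (a + 1) - w‖ ^ 2 ≤
      (‖s‖ ^ 2 * ‖u (a + 1) - w‖ + ‖1 - s‖ ^ 2 * ‖w‖) ^ 2 :=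
    pow_le_pow_left₀ (norm_nonneg _) b2 2
  have hden : 0 < 1 - ‖s‖ ^ 4 := by
    have : ‖s‖ ^ 4 < 1 := pow_lt_one₀ (norm_nonneg s) h1 (by norm_num)
    linarith
  have e4 : (‖s‖ ^ 2) ^ 2 = ‖s‖ ^ 4 := by ring
  rw [e4] at b3
  have b5 : ‖w‖ ^ 2 ≤ (a + 1) * (N - (a + 1)) / N * E N u := by
    have h3 : (a + 1 : ℝ) * (N - (a + 1)) * C ≤ (a + 1) * (N - (a + 1)) * E N u :=
      mul_le_mul_of_nonneg_left hCE (mul_nonneg (by positivity) (by linarith))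
    have h4 : (N : ℝ) * ‖w‖ ^ 2 ≤ N * ((a + 1) * (N - (a + 1)) / N * E N u) := by
      have : (N : ℝ) * ((a + 1) * (N - (a + 1)) / N * E N u) =
          (a + 1) * (N - (a + 1)) * E N u := by
        field_simp
      rw [this]
      linarith
    exact le_of_mul_le_mul_left h4 hNpos
  have b6 : (‖1 - s‖ ^ 2 * ‖w‖) ^ 2 / (1 - ‖s‖ ^ 4) ≤
      ‖1 - s‖ ^ 4 / (1 - ‖s‖ ^ 4) * ((a + 1) * (N - (a + 1)) / N * E N u) := by
    have : (‖1 - s‖ ^ 2 * ‖w‖) ^ 2 / (1 - ‖s‖ ^ 4) = ‖1 - s‖ ^ 4 / (1 - ‖s‖ ^ 4) * ‖w‖ ^ 2 := by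
      field_simp
    rw [this]
    exact mul_le_mul_of_nonneg_left b5 (by positivity)
  have e5 : (1 + 2 * ‖1 - s‖ ^ 4 / (1 - ‖s‖ ^ 4) * ((a + 1) * (N - (a + 1)) / N)) * E N u =
      E N u + 2 * (‖1 - s‖ ^ 4 / (1 - ‖s‖ ^ 4) * ((a + 1) * (N - (a + 1)) / N * E N u)) := by
    ring
  rw [e5]
  linarith

/-- the weight of a word -/
noncomputable def wt (N : ℕ) (w : List ℕ) : ℝ :=
  (w.map fun a : ℕ => ((a : ℝ) + 1) * (N - (a + 1)) / N).sum

@[simp] theorem wt_nil (N : ℕ) : wt N [] = 0 := rfl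

theorem wt_cons (N a : ℕ) (w : List ℕ) :
    wt N (a :: w) = ((a : ℝ) + 1) * (N - (a + 1)) / N + wt N w := rfl

theorem wt_append (N : ℕ) (v w : List ℕ) : wt N (v ++ w) = wt N v + wt N w := by
  unfold wt
  rw [List.map_append, List.sum_append]

theorem run_zero {N : ℕ} (t : ℂ) {w : List ℕ} (hw : ∀ a ∈ w, a + 1 < N) {L : ℕ → ℂ} (h0 : L 0 = 0)
    (hL : ∀ j, N ≤ j → L j = 0) : run t w L 0 = 0 ∧ ∀ j, N ≤ j → run t w L j = 0 := by
  induction w generalizing L with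
  | nil => exact ⟨h0, hL⟩
  | cons a w ih =>
    rw [run_cons]
    have ha := hw a (by simp)
    refine ih (fun b hb => hw b (List.mem_cons_of_mem _ hb)) ?_ fun j hj => ?_
    · unfold sg
      rw [Function.update_of_ne (by omega), h0]
    · unfold sg
      rw [Function.update_of_ne (by omega), hL j hj]

theorem E_run {s : ℂ} (hs : s ≠ 0) (h1 : ‖s‖ < 1) {N : ℕ} {w : List ℕ} (hw : ∀ a ∈ w, a + 1 < N)
    {L : ℕ → ℂ} (h0 : L 0 = 0) (hL : ∀ j, N ≤ j → L j = 0) :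
    E N (uu s (run (s ^ 2) w L)) ≤
      Real.exp (2 * ‖1 - s‖ ^ 4 / (1 - ‖s‖ ^ 4) * wt N w) * E N (uu s L) := by
  induction w generalizing L with
  | nil => simp
  | cons a w ih =>
    have ha := hw a (by simp)
    have hz := run_zero (N := N) (s ^ 2) (w := [a]) (by simpa using ha) h0 hL
    rw [run_cons, run_nil] at hz
    rw [run_cons]
    refine (ih (fun b hb => hw b (List.mem_cons_of_mem _ hb)) hz.1 hz.2).trans ?_
    rw [wt_cons, mul_add, Real.exp_add, mul_comm (Real.exp _) (Real.exp _), mul_assoc]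
    refine mul_le_mul_of_nonneg_left ?_ (Real.exp_pos _).le
    refine (E_sg hs h1 ha h0 (hL N le_rfl)).trans ?_
    refine mul_le_mul_of_nonneg_right ?_ (E_nonneg _ _)
    rw [add_comm]
    exact Real.add_one_le_exp _

/-- the half twist -/
theorem E_Dl {s : ℂ} (hs : s ≠ 0) {N : ℕ} {L : ℕ → ℂ} :
    E N (uu s (Dl (s ^ 2) N L)) = (‖s‖ ^ 2) ^ N * E N (uu s L) := by
  have key : ∀ j ≤ N, uu s (Dl (s ^ 2) N L) j = -s ^ N * uu s L (N - j) := by
    intro j hj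
    unfold uu Dl
    have e : s⁻¹ * s = 1 := inv_mul_cancel₀ hs
    have e1 : s⁻¹ ^ j * (s ^ 2) ^ j = s ^ j := by
      rw [pow_two, mul_pow, ← mul_assoc, ← mul_pow, e, one_pow, one_mul]
    have e2 : s ^ N * s⁻¹ ^ (N - j) = s ^ j := by
      have : s ^ N = s ^ j * s ^ (N - j) := by
        rw [← pow_add]
        congr 1
        omega
      rw [this, mul_assoc, ← mul_pow, mul_comm s, e, one_pow, mul_one]
    linear_combination (-L (N - j)) * e1 + L (N - j) * e2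
  unfold E
  rw [mul_sum, ← sum_range_reflect]
  refine sum_congr rfl fun j hj => ?_
  have hj' := mem_range.1 hj
  rw [key _ (by omega), key _ (by omega)]
  have e3 : N - (N - 1 - j + 1) = j := by omega
  have e4 : N - (N - 1 - j) = j + 1 := by omega
  rw [e3, e4, ← mul_sub, norm_mul, mul_pow, norm_neg, norm_pow, ← norm_neg (uu s L j - _), neg_sub]
  ring

/-- zero energy -/
theorem eq_zero_of_E {s : ℂ} (hs : s ≠ 0) {N : ℕ} {L : ℕ → ℂ} (h0 : L 0 = 0)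
    (hE : E N (uu s L) ≤ 0) : ∀ j ≤ N, L j = 0 := by
  have h := le_antisymm hE (E_nonneg _ _)
  unfold E at h
  rw [sum_eq_zero_iff_of_nonneg fun _ _ => by positivity] at h
  have h2 : ∀ j ≤ N, uu s L j = 0 := by
    intro j
    induction j with
    | zero =>
      intro _
      unfold uu
      rw [h0, mul_zero]
    | succ j ih =>
      intro hj
      have h3 := h j (mem_range.2 hj)
      rw [pow_eq_zero_iff (by norm_num), norm_eq_zero, sub_eq_zero] at h3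
      rw [h3, ih (by omega)]
  intro j hj
  have h3 := h2 j hj
  unfold uu at h3
  exact (mul_eq_zero.1 h3).resolve_left (pow_ne_zero _ (inv_ne_zero hs))

end Pool.Agent.Helper30.GA
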