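import Pool.Agent.Helper30.GA.PartB
import Pool.Agent.Helper49.GA.CaseB
import Pool.Agent.Helper52.TW.Eight

/-!
# Products of half twists and permutation braids
-/

set_option autoImplicit false

namespace Pool.Agent.Helper30.GA

open Pool.Agent.Helper69.LZ

theorem run_codes {n : ℕ} : ∀ R : List (List ℕ), (∀ w ∈ R, (∀ a ∈ w, a < n) ∧ Once id w) →
    ∃ C : List (ℕ → ℕ), C.length = R.length ∧ (∀ c ∈ C, ∀ k, c k ≤ k + 1) ∧
      ∀ (t : ℂ) (L : ℕ → ℂ), run t R.flatten L = run t (C.map (sw n)).flatten L := by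
  intro R
  induction R with
  | nil => exact fun _ => ⟨[], rfl, by simp, fun t L => rfl⟩
  | cons w R ih =>
    intro hR
    obtain ⟨C, h1, h2, h3⟩ := ih fun v hv => hR v (List.mem_cons_of_mem _ hv)
    obtain ⟨c, hc, e⟩ := Pool.Agent.Helper12.GA.normal (hR w (by simp)).1 (hR w (by simp)).2
    refine ⟨c :: C, by simp [h1], ?_, fun t L => ?_⟩
    · intro d hd
      rcases List.mem_cons.1 hd with rfl | hd
      · exact hc
      · exact h2 d hd
    · rw [List.flatten_cons, List.map_cons, List.flatten_cons, run_append, run_append, e, h3]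

/-- **At least a third half twists.** -/
theorem freeS_garside (n p : ℕ) (R : List (List ℕ)) (hp : 0 < p) (hl : R.length ≤ 2 * p)
    (hR : ∀ w ∈ R, (∀ a ∈ w, a < n) ∧ Once id w) : H52TW.FreeS n (tw n p ++ R.flatten) := by
  intro s hs h1 hz L h0 hL hfix
  -- the sign of `s`
  obtain ⟨u, hu2, hun, hure, huz, hu0⟩ : ∃ u : ℂ, u ^ 2 = s ^ 2 ∧ ‖u‖ = ‖s‖ ∧ 0 ≤ u.re ∧
      (u⁻¹ - u).im ^ 2 < 3 * (u⁻¹ - u).re ^ 2 ∧ u ≠ 0 := by
    rcases le_total 0 s.re with h | h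
    · exact ⟨s, rfl, rfl, h, hz, hs⟩
    · refine ⟨-s, by ring, norm_neg s, by rw [Complex.neg_re]; linarith, ?_, neg_ne_zero.2 hs⟩
      have e : (-s)⁻¹ - -s = -(s⁻¹ - s) := by
        rw [inv_neg]
        ring
      rw [e, Complex.neg_im, Complex.neg_re, neg_sq, neg_sq]
      exact hz
  rw [← hu2] at hfix
  rw [← hun] at h1
  have hσ : 0 < ‖u‖ := norm_pos_iff.2 hu0
  rcases le_or_gt (((n : ℝ) + 1) ^ 2 * (Real.log ‖u‖) ^ 2) (3 / 2) with hA | hB
  · obtain ⟨C, c1, c2, c3⟩ := run_codes R hR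
    rw [run_append, c3, ← run_append] at hfix
    exact partA hu0 h1 hure huz hA hp c2 (by omega) h0 (fun j hj => hL j (by omega)) hfix
  · obtain ⟨a, ha⟩ : ∃ a, a = -Real.log ‖u‖ := ⟨_, rfl⟩
    have ha0 : 0 < a := by
      rw [ha]
      have := Real.log_neg hσ h1
      linarith
    have hr : ‖u ^ 2‖ = Real.exp (-2 * a) := by
      rw [norm_pow, ha, show -2 * -Real.log ‖u‖ = Real.log ‖u‖ + Real.log ‖u‖ by ring,
        Real.exp_add, Real.exp_log hσ]
      ring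
    have ht : ‖u ^ 2‖ < 1 := by
      rw [norm_pow]
      exact pow_lt_one₀ (norm_nonneg _) h1 (by norm_num)
    have hk : ‖1 - u ^ 2‖ ≤ 2 * (1 - ‖u ^ 2‖) := (kappa_lt hu0 h1 huz).le
    obtain ⟨b1, b2⟩ := numB (n := n) ha0 hr (by rw [ha, neg_sq]; exact hB)
    have hr0 : 0 < ‖u ^ 2‖ := norm_pos_iff.2 (pow_ne_zero 2 hu0)
    have hA1 := Pool.Agent.Helper49.GA.one_le_AA hr0.le ht.le n
    unfold Pool.Agent.Helper49.GA.AA at hA1
    have hnum := numB_sq hr0 (by linarith) b1 b2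
    exact Pool.Agent.Helper49.GA.caseB ht hk hnum hp hl hR h0 hL hfix

end Pool.Agent.Helper30.GA
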