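import Pool.Agent.Helper30.GA.Energy

/-!
# The weight of a simple word, and the numbers
-/

set_option autoImplicit false

namespace Pool.Agent.Helper30.GA

open Pool.Agent.Helper69.LZ Finset

/-- one term -/
noncomputable def tm (N : ℕ) (i : ℕ) : ℝ := ((i : ℝ) + 1) * (N - (i + 1)) / N

theorem tm_nonneg {N i : ℕ} (h : i + 1 ≤ N) : 0 ≤ tm N i := by
  unfold tm
  have h2 : ((i + 1 : ℕ) : ℝ) ≤ N := by exact_mod_cast h
  push_cast at h2
  have h3 : 0 ≤ (N : ℝ) - (i + 1) := by linarith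
  positivity

theorem wt_vb (N k m : ℕ) : wt N (vb k m) = ∑ i ∈ range m, tm N (k - i) := by
  induction m with
  | zero => simp
  | succ m ih =>
    rw [vb_succ, wt_append, ih, sum_range_succ]
    congr 1
    rw [wt_cons, wt_nil, add_zero]
    rfl

theorem sum_tm (N k : ℕ) (hN : 0 < N) : ∑ i ∈ range (k + 1), tm N i =
    (k + 1) * (k + 2) * (3 * N - 2 * k - 3) / (6 * N) := by
  have hN' : (N : ℝ) ≠ 0 := by exact_mod_cast hN.ne'
  induction k with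
  | zero =>
    rw [sum_range_one]
    unfold tm
    field_simp
    push_cast
    ring
  | succ k ih =>
    rw [sum_range_succ, ih]
    unfold tm
    field_simp
    push_cast
    ring

theorem wt_vb_le {N k m : ℕ} (hk : k + 1 ≤ N) (hm : m ≤ k + 1) :
    wt N (vb k m) ≤ (k + 1) * (k + 2) * (3 * N - 2 * k - 3) / (6 * N) := by
  rw [wt_vb, ← sum_tm N k (by omega)]
  have e : ∑ i ∈ range (k + 1), tm N i = ∑ i ∈ range (k + 1), tm N (k - i) := by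
    rw [← sum_range_reflect]
    refine sum_congr rfl fun j hj => ?_
    congr 1
  rw [e]
  refine sum_le_sum_of_subset_of_nonneg (range_mono hm) fun i _ _ => tm_nonneg (by omega)

theorem wt_sw_le {N n : ℕ} (hn : n ≤ N) {c : ℕ → ℕ} (hc : ∀ k, c k ≤ k + 1) :
    wt N (sw n c) ≤ n * (n + 1) * (n + 2) * (2 * N - (n + 1)) / (12 * N) := by
  induction n with
  | zero => simp
  | succ n ih =>
    have hN' : (N : ℝ) ≠ 0 := by
      have : 0 < N := by omega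
      exact_mod_cast this.ne'
    rw [sw_succ, wt_append]
    have h1 := ih (by omega)
    have h2 := wt_vb_le (N := N) (k := n) (m := c n) hn (hc n)
    have e : ((n + 1 : ℕ) : ℝ) * ((n + 1 : ℕ) + 1) * ((n + 1 : ℕ) + 2) * (2 * N - ((n + 1 : ℕ) + 1)) /
        (12 * N) = n * (n + 1) * (n + 2) * (2 * N - (n + 1)) / (12 * N) +
        (n + 1) * (n + 2) * (3 * N - 2 * n - 3) / (6 * N) := by
      field_simp
      push_cast
      ring
    rw [e]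
    linarith

theorem wt_sw {n : ℕ} {c : ℕ → ℕ} (hc : ∀ k, c k ≤ k + 1) :
    wt (n + 1) (sw n c) ≤ n * (n + 1) * (n + 2) / 12 := by
  refine (wt_sw_le (N := n + 1) (n := n) (by omega) hc).trans (le_of_eq ?_)
  have : ((n : ℝ) + 1) ≠ 0 := by positivity
  push_cast
  field_simp
  ring

theorem wt_flatten {n : ℕ} {R : List (ℕ → ℕ)} (hR : ∀ c ∈ R, ∀ k, c k ≤ k + 1) :
    wt (n + 1) (R.map (sw n)).flatten ≤ R.length * (n * (n + 1) * (n + 2) / 12) := by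
  induction R with
  | nil => simp
  | cons c R ih =>
    rw [List.map_cons, List.flatten_cons, wt_append, List.length_cons]
    have h1 := ih fun d hd => hR d (List.mem_cons_of_mem _ hd)
    have h2 := wt_sw (n := n) (hR c (by simp))
    push_cast
    linarith

theorem sw_lt {n : ℕ} {c : ℕ → ℕ} : ∀ a ∈ sw n c, a < n := by
  intro a ha
  unfold sw vb at ha
  rw [List.mem_flatMap] at ha
  obtain ⟨k, hk, hak⟩ := ha
  rw [List.mem_range] at hk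
  rw [List.mem_map] at hak
  obtain ⟨i, _, rfl⟩ := hak
  omega

/-! ### numbers -/

/-- outside of the sector: `‖1 - s‖ ≤ 2 (1 - ‖s‖)` -/
theorem norm_one_sub_le {s : ℂ} (hs : s ≠ 0) (h1 : ‖s‖ < 1) (hre : 0 ≤ s.re)
    (hz : (s⁻¹ - s).im ^ 2 < 3 * (s⁻¹ - s).re ^ 2) : ‖1 - s‖ ≤ 2 * (1 - ‖s‖) := by
  obtain ⟨σ, hσ⟩ : ∃ σ, σ = ‖s‖ := ⟨_, rfl⟩
  have hn : 0 < σ := hσ ▸ norm_pos_iff.2 hs
  rw [← hσ] at h1 ⊢
  obtain ⟨c, hc⟩ : ∃ c, c = s.re / σ := ⟨_, rfl⟩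
  obtain ⟨d, hd⟩ : ∃ d, d = s.im / σ := ⟨_, rfl⟩
  have e1 : s.re = σ * c := by
    rw [hc]
    field_simp
  have e2 : s.im = σ * d := by
    rw [hd]
    field_simp
  have hsq : s.re ^ 2 + s.im ^ 2 = σ ^ 2 := by
    rw [hσ, Complex.sq_norm, Complex.normSq_apply]
    ring
  have hcd : c ^ 2 + d ^ 2 = 1 := by
    have h2 : σ ^ 2 * (c ^ 2 + d ^ 2) = σ ^ 2 * 1 := by
      rw [e1, e2] at hsq
      linarith
    exact mul_left_cancel₀ (by positivity) h2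
  have hc0 : 0 ≤ c := by
    rw [hc]
    positivity
  have hc1 : c ≤ 1 := by nlinarith [sq_nonneg d]
  have hns : Complex.normSq s = σ ^ 2 := by
    rw [Complex.normSq_eq_norm_sq, hσ]
  have r1 : (s⁻¹ - s).re = c * (1 / σ - σ) := by
    rw [Complex.sub_re, Complex.inv_re, hns, e1]
    field_simp
  have r2 : (s⁻¹ - s).im = -(d * (1 / σ + σ)) := by
    rw [Complex.sub_im, Complex.inv_im, hns, e2]
    field_simp
    ring
  rw [r1, r2] at hz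
  have hz2 : d ^ 2 * (1 + σ ^ 2) ^ 2 < 3 * c ^ 2 * (1 - σ ^ 2) ^ 2 := by
    have k1 : (-(d * (1 / σ + σ))) ^ 2 * σ ^ 2 = d ^ 2 * (1 + σ ^ 2) ^ 2 := by
      field_simp
    have k2 : 3 * (c * (1 / σ - σ)) ^ 2 * σ ^ 2 = 3 * c ^ 2 * (1 - σ ^ 2) ^ 2 := by
      field_simp
    rw [← k1, ← k2]
    exact mul_lt_mul_of_pos_right hz (by positivity)
  have hd2 : d ^ 2 = (1 - c) * (1 + c) := by linarith
  rw [hd2] at hz2
  -- `2 σ (1 - c) ≤ 3 (1 - σ) ^ 2`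
  have g1 : σ * (1 + σ) ^ 2 ≤ (1 + σ ^ 2) ^ 2 := by
    have : 0 ≤ (1 - σ) * (1 - σ ^ 3) := by
      have : σ ^ 3 ≤ 1 := pow_le_one₀ hn.le h1.le
      exact mul_nonneg (by linarith) (by linarith)
    nlinarith
  have g2 : 2 * c ^ 2 ≤ 1 + c := by nlinarith
  have g3 : 2 * σ * (1 - c) ≤ 3 * (1 - σ) ^ 2 := by
    have hP : 0 < (1 + c) * (1 + σ ^ 2) ^ 2 := by positivity
    have k1 : (2 * σ * (1 - c)) * ((1 + c) * (1 + σ ^ 2) ^ 2) ≤
        2 * σ * (3 * c ^ 2 * (1 - σ ^ 2) ^ 2) := by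
      have := mul_le_mul_of_nonneg_left hz2.le (by positivity : 0 ≤ 2 * σ)
      linarith
    have k2 : 2 * σ * (3 * c ^ 2 * (1 - σ ^ 2) ^ 2) =
        3 * (1 - σ) ^ 2 * ((2 * c ^ 2) * (σ * (1 + σ) ^ 2)) := by ring
    have k3 : (2 * c ^ 2) * (σ * (1 + σ) ^ 2) ≤ (1 + c) * (1 + σ ^ 2) ^ 2 :=
      mul_le_mul g2 g1 (by positivity) (by positivity)
    have k4 := mul_le_mul_of_nonneg_left k3 (by positivity : 0 ≤ 3 * (1 - σ) ^ 2)
    have k5 : (2 * σ * (1 - c)) * ((1 + c) * (1 + σ ^ 2) ^ 2) ≤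
        (3 * (1 - σ) ^ 2) * ((1 + c) * (1 + σ ^ 2) ^ 2) := by
      rw [k2] at k1
      exact k1.trans k4
    exact le_of_mul_le_mul_right k5 hP
  have e3 : ‖1 - s‖ ^ 2 = 1 - 2 * (σ * c) + σ ^ 2 := by
    rw [Complex.sq_norm, Complex.normSq_apply, Complex.sub_re, Complex.sub_im, Complex.one_re,
      Complex.one_im, ← e1]
    linarith
  have e4 : ‖1 - s‖ ^ 2 ≤ (2 * (1 - σ)) ^ 2 := by
    rw [e3]
    nlinarith
  exact le_of_sq_le_sq e4 (by linarith)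

/-- `1 - σ ≤ a (1 + σ) / 2` for `σ = exp (- a)` -/
theorem one_sub_le {σ : ℝ} (h0 : 0 < σ) (h1 : σ < 1) :
    1 - σ ≤ (-Real.log σ) * (1 + σ) / 2 := by
  have hx : 0 ≤ (1 - σ) / σ := div_nonneg (by linarith) h0.le
  have h := Real.le_log_one_add_of_nonneg hx
  have e1 : 1 + (1 - σ) / σ = σ⁻¹ := by
    field_simp
    ring
  rw [e1, Real.log_inv] at h
  have e2 : 2 * ((1 - σ) / σ) / ((1 - σ) / σ + 2) = 2 * (1 - σ) / (1 + σ) := by
    have : (1 - σ) / σ + 2 = (1 + σ) / σ := by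
      field_simp
      ring
    rw [this]
    have h3 : 1 + σ ≠ 0 := by positivity
    field_simp
  rw [e2, div_le_iff₀ (by linarith)] at h
  linarith

/-- the number needed in part A -/
theorem numA {σ δ a : ℝ} {n : ℕ} (h0 : 0 < σ) (h1 : σ < 1) (ha : a = -Real.log σ)
    (hδ0 : 0 ≤ δ) (hδ : δ ≤ 2 * (1 - σ)) (hn : (n + 1) ^ 2 * a ^ 2 ≤ 3 / 2) :
    2 * δ ^ 4 / (1 - σ ^ 4) * (n * (n + 1) * (n + 2) / 12) < (n + 1) * a := by
  have ha0 : 0 < a := by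
    rw [ha]
    have := Real.log_neg h0 h1
    linarith
  have h4 : 0 < 1 - σ ^ 4 := by
    have : σ ^ 4 < 1 := pow_lt_one₀ h0.le h1 (by norm_num)
    linarith
  have hm := one_sub_le h0 h1
  rw [← ha] at hm
  have hd : 0 < 1 - σ := by linarith
  have q1 : (1 - σ) ^ 2 ≤ a ^ 2 * (1 + σ ^ 2) / 2 := by
    have k1 : (1 - σ) ^ 2 ≤ (a * (1 + σ) / 2) ^ 2 := pow_le_pow_left₀ hd.le hm 2
    nlinarith [mul_nonneg (sq_nonneg a) (sq_nonneg (1 - σ))]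
  have q2 : 4 * (1 - σ) ^ 3 ≤ a ^ 3 * (1 + σ) * (1 + σ ^ 2) := by
    have k1 : (1 - σ) ^ 2 * (1 - σ) ≤ (a ^ 2 * (1 + σ ^ 2) / 2) * (a * (1 + σ) / 2) :=
      mul_le_mul q1 hm hd.le (by positivity)
    nlinarith
  have q3 : δ ^ 4 ≤ 16 * (1 - σ) ^ 4 := by
    have := pow_le_pow_left₀ hδ0 hδ 4
    nlinarith
  have e4 : 1 - σ ^ 4 = (1 - σ) * ((1 + σ) * (1 + σ ^ 2)) := by ring
  have hP : 0 < (1 + σ) * (1 + σ ^ 2) := by positivity
  have q4 : δ ^ 4 / (1 - σ ^ 4) ≤ 4 * a ^ 3 := by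
    rw [div_le_iff₀ h4, e4]
    have k1 : 16 * (1 - σ) ^ 4 = 4 * (1 - σ) * (4 * (1 - σ) ^ 3) := by ring
    have k2 : 4 * (1 - σ) * (4 * (1 - σ) ^ 3) ≤
        4 * (1 - σ) * (a ^ 3 * (1 + σ) * (1 + σ ^ 2)) :=
      mul_le_mul_of_nonneg_left q2 (by linarith)
    calc δ ^ 4 ≤ 16 * (1 - σ) ^ 4 := q3
      _ ≤ 4 * (1 - σ) * (a ^ 3 * (1 + σ) * (1 + σ ^ 2)) := by rw [k1]; exact k2
      _ = _ := by ring
  have hnn : (0 : ℝ) ≤ n := Nat.cast_nonneg n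
  have q5 : 2 * δ ^ 4 / (1 - σ ^ 4) * (n * (n + 1) * (n + 2) / 12) ≤
      2 * (4 * a ^ 3) * (n * (n + 1) * (n + 2) / 12) := by
    have : 2 * δ ^ 4 / (1 - σ ^ 4) = 2 * (δ ^ 4 / (1 - σ ^ 4)) := by ring
    rw [this]
    exact mul_le_mul_of_nonneg_right (by linarith) (by positivity)
  refine q5.trans_lt ?_
  have q6 : (n : ℝ) * (n + 2) * a ^ 2 < 3 / 2 := by nlinarith [sq_pos_of_pos ha0]
  have hpos : 0 < ((n : ℝ) + 1) * a := by positivity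
  have e5 : 2 * (4 * a ^ 3) * (n * (n + 1) * (n + 2) / 12) =
      ((n + 1) * a) * (2 / 3 * (n * (n + 2) * a ^ 2)) := by ring
  rw [e5]
  nlinarith

/-! ### the half twist -/

theorem act_gt (t : ℂ) {N : ℕ} {A : List ℕ} (hA : ∀ r ∈ A, r ≤ N) (L : ℕ → ℂ) {j : ℕ}
    (hj : N ≤ j) : Pool.Agent.Helper87.LZ.act t A L j = L j := by
  induction A generalizing L with
  | nil => rfl
  | cons r A ih =>
    rw [Pool.Agent.Helper87.LZ.act_cons, ih (fun x hx => hA x (List.mem_cons_of_mem _ hx))]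
    unfold Pool.Agent.Helper87.LZ.T
    rw [if_neg]
    have := hA r (by simp)
    omega

theorem run_D (t : ℂ) {n : ℕ} {L : ℕ → ℂ} (h0 : L 0 = 0) (hL : ∀ j, n + 1 ≤ j → L j = 0) :
    run t (wd (down (n + 1))) L = Dl t (n + 1) L := by
  rw [run_wd t _ h0]
  funext j
  rcases le_or_gt j (n + 1) with h | h
  · exact act_down t (n + 1) h0 (hL _ le_rfl) j h
  · rw [act_gt t (fun r hr => (mem_down.1 hr).2) L h.le, hL j h.le]
    unfold Dl
    rw [show n + 1 - j = 0 by omega, h0, mul_zero]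

theorem Dl_zero (t : ℂ) {N : ℕ} {L : ℕ → ℂ} (h0 : L 0 = 0) (hL : ∀ j, N ≤ j → L j = 0) :
    Dl t N L 0 = 0 ∧ ∀ j, N ≤ j → Dl t N L j = 0 := by
  unfold Dl
  constructor
  · rw [Nat.sub_zero, hL N le_rfl, mul_zero]
  · intro j hj
    rw [show N - j = 0 by omega, h0, mul_zero]

theorem tw_succ (n p : ℕ) : tw n (p + 1) = wd (down (n + 1)) ++ tw n p := by
  unfold tw
  rw [List.replicate_succ, List.flatten_cons]

theorem E_tw {s : ℂ} (hs : s ≠ 0) {n : ℕ} (p : ℕ) {L : ℕ → ℂ} (h0 : L 0 = 0)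
    (hL : ∀ j, n + 1 ≤ j → L j = 0) :
    (run (s ^ 2) (tw n p) L 0 = 0 ∧ ∀ j, n + 1 ≤ j → run (s ^ 2) (tw n p) L j = 0) ∧
    E (n + 1) (uu s (run (s ^ 2) (tw n p) L)) = ((‖s‖ ^ 2) ^ (n + 1)) ^ p * E (n + 1) (uu s L) := by
  induction p generalizing L with
  | zero =>
    refine ⟨⟨h0, hL⟩, ?_⟩
    rw [pow_zero, one_mul]
    rfl
  | succ p ih =>
    have h := Dl_zero (s ^ 2) h0 hL
    rw [tw_succ, run_append, run_D _ h0 hL]
    obtain ⟨i1, i2⟩ := ih h.1 h.2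
    refine ⟨i1, ?_⟩
    rw [i2, E_Dl hs, pow_succ]
    ring

/-- **Part A.** -/
theorem partA {s : ℂ} (hs : s ≠ 0) (h1 : ‖s‖ < 1) (hre : 0 ≤ s.re)
    (hz : (s⁻¹ - s).im ^ 2 < 3 * (s⁻¹ - s).re ^ 2) {n p : ℕ}
    (hn : ((n : ℝ) + 1) ^ 2 * (Real.log ‖s‖) ^ 2 ≤ 3 / 2) (hp : 0 < p) {R : List (ℕ → ℕ)}
    (hR : ∀ c ∈ R, ∀ k, c k ≤ k + 1) (hl : R.length ≤ 2 * p) {L : ℕ → ℂ} (h0 : L 0 = 0)
    (hL : ∀ j, n + 1 ≤ j → L j = 0)
    (hfix : run (s ^ 2) (tw n p ++ (R.map (sw n)).flatten) L = L) : L = 0 := by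
  obtain ⟨a, ha⟩ : ∃ a, a = -Real.log ‖s‖ := ⟨_, rfl⟩
  have hσ : 0 < ‖s‖ := norm_pos_iff.2 hs
  have hδ := norm_one_sub_le hs h1 hre hz
  have hnum := numA (n := n) hσ h1 ha (norm_nonneg (1 - s)) hδ (by rw [ha, neg_sq]; exact hn)
  obtain ⟨⟨t0, tL⟩, tE⟩ := E_tw hs p h0 hL
  have hw : ∀ b ∈ (R.map (sw n)).flatten, b + 1 < n + 1 := by
    intro b hb
    rw [List.mem_flatten] at hb
    obtain ⟨l, hl', hb⟩ := hb
    rw [List.mem_map] at hl'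
    obtain ⟨c, _, rfl⟩ := hl'
    have := sw_lt b hb
    omega
  have k1 := E_run hs h1 hw t0 tL
  rw [← run_append, hfix, tE] at k1
  obtain ⟨W, hW⟩ : ∃ W, W = wt (n + 1) (R.map (sw n)).flatten := ⟨_, rfl⟩
  obtain ⟨e, he⟩ : ∃ e, e = 2 * ‖1 - s‖ ^ 4 / (1 - ‖s‖ ^ 4) := ⟨_, rfl⟩
  have h4 : 0 < 1 - ‖s‖ ^ 4 := by
    have : ‖s‖ ^ 4 < 1 := pow_lt_one₀ hσ.le h1 (by norm_num)
    linarith
  have he0 : 0 ≤ e := by
    rw [he]
    positivity
  rw [← he] at hnum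
  rw [← hW, ← he] at k1
  have hW2 : W ≤ (2 * p) * (n * (n + 1) * (n + 2) / 12) := by
    rw [hW]
    refine (wt_flatten hR).trans ?_
    refine mul_le_mul_of_nonneg_right ?_ (by positivity)
    exact_mod_cast hl
  have hp' : (0 : ℝ) < p := by exact_mod_cast hp
  have k2 : e * W < 2 * p * ((n + 1) * a) := by
    calc e * W ≤ e * ((2 * p) * (n * (n + 1) * (n + 2) / 12)) := mul_le_mul_of_nonneg_left hW2 he0
      _ = (2 * p) * (e * (n * (n + 1) * (n + 2) / 12)) := by ring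
      _ < (2 * p) * ((n + 1) * a) := mul_lt_mul_of_pos_left hnum (by positivity)
      _ = _ := by ring
  have k3 : ((‖s‖ ^ 2) ^ (n + 1)) ^ p = Real.exp (-(2 * p * ((n + 1) * a))) := by
    have : ‖s‖ = Real.exp (-a) := by
      rw [ha, neg_neg, Real.exp_log hσ]
    rw [this, ← Real.exp_nat_mul, ← Real.exp_nat_mul, ← Real.exp_nat_mul]
    congr 1
    push_cast
    ring
  have k4 : Real.exp (e * W) * ((‖s‖ ^ 2) ^ (n + 1)) ^ p < 1 := by
    rw [k3, ← Real.exp_add]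
    rw [Real.exp_lt_one_iff]
    linarith
  have k5 : E (n + 1) (uu s L) ≤ 0 := by
    by_contra hcon
    push Not at hcon
    have := mul_lt_mul_of_pos_right k4 hcon
    rw [one_mul, mul_assoc] at this
    linarith
  have k6 := eq_zero_of_E hs h0 k5
  funext j
  rcases le_or_gt j (n + 1) with h | h
  · exact k6 j h
  · exact hL j h.le

end Pool.Agent.Helper30.GA
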