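import Pool.Agent.Helper30.GA.PartA

/-!
# The number of part B
-/

set_option autoImplicit false

namespace Pool.Agent.Helper30.GA

/-- `exp (- 24494 / 10000) ≤ 9 / 100` -/
theorem exp_num : Real.exp (-(24494 / 10000)) ≤ 9 / 100 := by
  rw [Real.exp_neg, inv_le_comm₀ (Real.exp_pos _) (by norm_num)]
  have e1 : Real.exp (24494 / 10000) = Real.exp 1 * (Real.exp 1 * Real.exp (4494 / 10000)) := by
    rw [← Real.exp_add, ← Real.exp_add]
    congr 1
    norm_num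
  have h1 : (2.7182818283 : ℝ) < Real.exp 1 := Real.exp_one_gt_d9
  have h2 : (1.55 : ℝ) ≤ Real.exp (4494 / 10000) := by
    have := Real.quadratic_le_exp_of_nonneg (x := 4494 / 10000) (by norm_num)
    refine le_trans ?_ this
    norm_num
  rw [e1]
  have h3 : (2.7 : ℝ) ≤ Real.exp 1 := by linarith
  calc (9 / 100 : ℝ)⁻¹ ≤ 2.7 * (2.7 * 1.55) := by norm_num
    _ ≤ Real.exp 1 * (Real.exp 1 * Real.exp (4494 / 10000)) := by
        refine mul_le_mul h3 ?_ (by norm_num) (Real.exp_pos _).le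
        exact mul_le_mul h3 h2 (by norm_num) (Real.exp_pos _).le

/-- the number needed in part B -/
theorem numB {r a : ℝ} {n : ℕ} (ha : 0 < a) (hr : r = Real.exp (-2 * a))
    (hn : 3 / 2 < ((n : ℝ) + 1) ^ 2 * a ^ 2) :
    4 - 3 * r ^ n - 2 * (1 - r) * n * r ^ n ≤ 4 - 7898 / 1000 * r ^ (n + 1) ∧
      r ^ (n + 1) ≤ 9 / 100 := by
  have hr0 : 0 < r := by
    rw [hr]
    exact Real.exp_pos _
  have hr1 : r < 1 := by
    rw [hr, Real.exp_lt_one_iff]
    linarith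
  have hN : (12247 / 10000 : ℝ) < (n + 1) * a := by
    have h2 : 0 ≤ ((n : ℝ) + 1) * a := by positivity
    nlinarith
  have hx : r ^ (n + 1) = Real.exp (-(2 * ((n + 1) * a))) := by
    rw [hr, ← Real.exp_nat_mul]
    congr 1
    push_cast
    ring
  constructor
  · -- `c = 1 / r - 1 ≥ 2 a`
    obtain ⟨c, hc⟩ : ∃ c, c = r⁻¹ - 1 := ⟨_, rfl⟩
    have hc1 : 2 * a ≤ c := by
      have := Real.add_one_le_exp (2 * a)
      rw [hc, hr, ← Real.exp_neg, show -(-2 * a) = 2 * a by ring]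
      linarith
    have e1 : r ^ n = r ^ (n + 1) * (1 + c) := by
      rw [hc, pow_succ]
      field_simp
      ring
    have e2 : (1 - r) * (1 + c) = c := by
      rw [hc]
      field_simp
      ring
    have hx0 : 0 < r ^ (n + 1) := pow_pos hr0 _
    have e3 : 4 - 3 * r ^ n - 2 * (1 - r) * n * r ^ n =
        4 - r ^ (n + 1) * (3 * (1 + c) + 2 * n * ((1 - r) * (1 + c))) := by
      rw [e1]
      ring
    rw [e3, e2]
    have h3 : (7898 / 1000 : ℝ) ≤ 3 * (1 + c) + 2 * n * c := by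
      have h4 : (2 * (n : ℝ) + 3) * (2 * a) ≤ (2 * n + 3) * c :=
        mul_le_mul_of_nonneg_left hc1 (by positivity)
      nlinarith
    nlinarith [mul_le_mul_of_nonneg_left h3 hx0.le]
  · rw [hx]
    refine le_trans (Real.exp_le_exp.2 ?_) exp_num
    linarith

theorem numB_sq {r : ℝ} {n : ℕ} {A : ℝ} (hr : 0 < r) (hA0 : 0 ≤ A)
    (hA : A ≤ 4 - 7898 / 1000 * r ^ (n + 1)) (hx : r ^ (n + 1) ≤ 9 / 100) :
    A ^ 2 * r ^ (n + 1) < 1 := by
  obtain ⟨x, hx'⟩ : ∃ x, x = r ^ (n + 1) := ⟨_, rfl⟩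
  have hx0 : 0 < x := by
    rw [hx']
    exact pow_pos hr _
  rw [← hx'] at hA hx ⊢
  have h1 : A ^ 2 ≤ (4 - 7898 / 1000 * x) ^ 2 := pow_le_pow_left₀ hA0 hA 2
  have h2 : (4 - 7898 / 1000 * x) ^ 2 * x < 1 := by
    have h3 : 0 ≤ (9 / 100 - x) := by linarith
    nlinarith [mul_nonneg h3 hx0.le, mul_nonneg (mul_nonneg h3 hx0.le) hx0.le, mul_nonneg h3 h3,
      mul_nonneg (mul_nonneg h3 h3) hx0.le]
  calc A ^ 2 * x ≤ (4 - 7898 / 1000 * x) ^ 2 * x := mul_le_mul_of_nonneg_right h1 hx0.le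
    _ < 1 := h2

end Pool.Agent.Helper30.GA
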